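import Mathlib
import Pool.Agent.Lib.helper12.GWB

set_option autoImplicit false

namespace Pool.Agent.Results.MP_34b196_pr.Full
open Pool.Agent.Lib.helper12.GW

theorem result {X : Type} [Countable X] (μ : X → PMF (X →₀ ℕ))
    (h : q μ Set.univ ≤ qt μ ∧ q μ Set.univ ≠ qt μ) :
    Cardinal.mk {s : X → ℝ | s ∈ S μ ∧ q μ Set.univ ≤ s ∧ s ≤ qt μ} = Cardinal.continuum :=
  between (lt_of_le_of_ne h.1 h.2)

end Pool.Agent.Results.MP_34b196_pr.Full
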